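import Pool.Agent.Helper64.MH.Defs

/-!
# Part HOM: the weight of the cone over a body
-/

set_option autoImplicit false

namespace MH.Helper47

open MeasureTheory Matrix
open scoped ENNReal Pointwise

theorem gamma_lint (n : ℕ) :
    ∫⁻ s in Set.Ioi (0 : ℝ), ENNReal.ofReal (Real.exp (-s)) * ENNReal.ofReal (s ^ n) =
      ENNReal.ofReal (n.factorial : ℝ) := by
  have h1 : ∫ x in Set.Ioi (0 : ℝ), Real.exp (-x) * x ^ n = (n.factorial : ℝ) := by
    rw [← Real.Gamma_nat_eq_factorial, Real.Gamma_eq_integral (by positivity)]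
    refine setIntegral_congr_fun measurableSet_Ioi fun x hx => ?_
    show Real.exp (-x) * x ^ n = Real.exp (-x) * x ^ ((n : ℝ) + 1 - 1)
    rw [add_sub_cancel_right, Real.rpow_natCast]
  have h2 : IntegrableOn (fun x : ℝ => Real.exp (-x) * x ^ n) (Set.Ioi 0) := by
    have h3 := Real.GammaIntegral_convergent (s := (n : ℝ) + 1) (by positivity)
    refine h3.congr_fun (fun x hx => ?_) measurableSet_Ioi
    show Real.exp (-x) * x ^ ((n : ℝ) + 1 - 1) = Real.exp (-x) * x ^ n
    rw [add_sub_cancel_right, Real.rpow_natCast]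
  rw [← h1, ofReal_integral_eq_lintegral_ofReal h2]
  · refine setLIntegral_congr_fun measurableSet_Ioi fun x hx => ?_
    show ENNReal.ofReal (Real.exp (-x)) * ENNReal.ofReal (x ^ n) = _
    rw [← ENNReal.ofReal_mul (Real.exp_pos _).le]
  · refine (ae_restrict_iff' measurableSet_Ioi).2 (Filter.Eventually.of_forall fun x hx => ?_)
    have hx' : (0 : ℝ) < x := hx
    show 0 ≤ Real.exp (-x) * x ^ n
    positivity

theorem hom : S_HOM := by
  intro n K hK
  set C : Set (Fin (n + 1) → ℝ) := {x | ∃ s : ℝ, 0 ≤ s ∧ ∃ k ∈ K, x = Fin.cons s (s • k)} with hC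
  set C' : Set (Fin (n + 1) → ℝ) := {x | 0 < x 0 ∧ (x 0)⁻¹ • (fun i : Fin n => x i.succ) ∈ K} with hC'
  have hC'm : MeasurableSet C' := by
    apply MeasurableSet.inter
    · exact measurableSet_lt measurable_const (measurable_pi_apply 0)
    · have : Measurable (fun x : Fin (n + 1) → ℝ => (x 0)⁻¹ • (fun i : Fin n => x i.succ)) := by
        refine measurable_pi_lambda _ fun i => ?_
        exact (measurable_pi_apply 0).inv.mul (measurable_pi_apply i.succ)
      exact this hK
  have hsub : C' ⊆ C := by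
    rintro x ⟨h0, h1⟩
    refine ⟨x 0, h0.le, _, h1, ?_⟩
    funext i
    refine Fin.cases ?_ (fun j => ?_) i
    · rfl
    · show x j.succ = (x 0 • ((x 0)⁻¹ • fun i : Fin n => x i.succ)) j
      rw [smul_smul, mul_inv_cancel₀ h0.ne', one_smul]
  have hdiff : C \ C' ⊆ {x | x 0 = 0} := by
    rintro x ⟨⟨s, hs, k, hk, rfl⟩, h2⟩
    by_contra h3
    apply h2
    have h4 : (Fin.cons s (s • k) : Fin (n + 1) → ℝ) 0 = s := rfl
    have h5 : s ≠ 0 := by
      intro h6
      exact h3 (h4.trans h6)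
    have h6 : 0 < s := lt_of_le_of_ne hs (Ne.symm h5)
    refine ⟨by rw [h4]; exact h6, ?_⟩
    rw [h4]
    have h7 : (fun i : Fin n => (Fin.cons s (s • k) : Fin (n + 1) → ℝ) i.succ) = s • k := rfl
    rw [h7, smul_smul, inv_mul_cancel₀ h5, one_smul]
    exact hk
  have hnull : volume {x : Fin (n + 1) → ℝ | x 0 = 0} = 0 := by
    have h1 := Measure.addHaar_affineSubspace (volume : Measure (Fin (n + 1) → ℝ))
      ((LinearMap.proj (R := ℝ) (φ := fun _ : Fin (n + 1) => ℝ) 0).ker.toAffineSubspace) (by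
        intro h
        have h2 : (Pi.single 0 1 : Fin (n + 1) → ℝ) ∈
            ((LinearMap.proj (R := ℝ) (φ := fun _ : Fin (n + 1) => ℝ) 0).ker.toAffineSubspace) := by
          rw [h]; trivial
        have h3 : (Pi.single 0 1 : Fin (n + 1) → ℝ) 0 = 0 := h2
        rw [Pi.single_eq_same] at h3
        exact one_ne_zero h3)
    refine le_antisymm (le_trans (measure_mono ?_) h1.le) zero_le
    intro x hx
    exact hx
  have hae : C =ᵐ[volume] C' := by
    rw [ae_eq_set]
    refine ⟨measure_mono_null hdiff hnull, ?_⟩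
    rw [Set.sdiff_eq_empty.2 hsub]
    exact measure_empty
  unfold W
  rw [setLIntegral_congr hae, ← lintegral_indicator hC'm]
  have hmp := volume_preserving_piFinSuccAbove (fun _ : Fin (n + 1) => ℝ) 0
  have hmeas : Measurable (fun x : Fin (n + 1) → ℝ => C'.indicator
      (fun x => ENNReal.ofReal (Real.exp (-((Fin.cons 1 0 : Fin (n + 1) → ℝ) ⬝ᵥ x)))) x) := by
    apply Measurable.indicator _ hC'm
    apply ENNReal.measurable_ofReal.comp
    apply Real.measurable_exp.comp
    apply Measurable.neg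
    unfold dotProduct
    exact Finset.measurable_sum _ fun i _ => (measurable_const.mul (measurable_pi_apply i))
  rw [← hmp.symm.lintegral_comp hmeas]
  have hme : Measurable fun z : ℝ × (Fin n → ℝ) => C'.indicator
      (fun x => ENNReal.ofReal (Real.exp (-((Fin.cons 1 0 : Fin (n + 1) → ℝ) ⬝ᵥ x))))
      ((MeasurableEquiv.piFinSuccAbove (fun _ : Fin (n + 1) => ℝ) 0).symm z) :=
    hmeas.comp (MeasurableEquiv.measurable _)
  have hprod : (∫⁻ z : ℝ × (Fin n → ℝ), C'.indicator
      (fun x => ENNReal.ofReal (Real.exp (-((Fin.cons 1 0 : Fin (n + 1) → ℝ) ⬝ᵥ x))))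
      ((MeasurableEquiv.piFinSuccAbove (fun _ : Fin (n + 1) => ℝ) 0).symm z)) =
      ∫⁻ s : ℝ, ∫⁻ y : Fin n → ℝ, C'.indicator
      (fun x => ENNReal.ofReal (Real.exp (-((Fin.cons 1 0 : Fin (n + 1) → ℝ) ⬝ᵥ x))))
      ((MeasurableEquiv.piFinSuccAbove (fun _ : Fin (n + 1) => ℝ) 0).symm (s, y)) :=
    lintegral_prod _ hme.aemeasurable
  have hval : ∀ (s : ℝ) (y : Fin n → ℝ),
      (MeasurableEquiv.piFinSuccAbove (fun _ : Fin (n + 1) => ℝ) 0).symm (s, y) =
        (Fin.cons s y : Fin (n + 1) → ℝ) := by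
    intro s y
    funext i
    refine Fin.cases ?_ (fun j => ?_) i
    · rfl
    · rfl
  have hdot : ∀ (s : ℝ) (y : Fin n → ℝ),
      (Fin.cons 1 0 : Fin (n + 1) → ℝ) ⬝ᵥ (Fin.cons s y : Fin (n + 1) → ℝ) = s := by
    intro s y
    unfold dotProduct
    rw [Fin.sum_univ_succ]
    simp
  have hinner : ∀ s : ℝ, (∫⁻ y : Fin n → ℝ, C'.indicator
      (fun x => ENNReal.ofReal (Real.exp (-((Fin.cons 1 0 : Fin (n + 1) → ℝ) ⬝ᵥ x))))
      ((MeasurableEquiv.piFinSuccAbove (fun _ : Fin (n + 1) => ℝ) 0).symm (s, y))) =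
      (Set.Ioi (0 : ℝ)).indicator (fun s => ENNReal.ofReal (Real.exp (-s)) *
        ENNReal.ofReal (s ^ n) * volume K) s := by
    intro s
    by_cases hs : 0 < s
    · rw [Set.indicator_of_mem (Set.mem_Ioi.2 hs)]
      have h1 : ∀ y : Fin n → ℝ, C'.indicator
          (fun x => ENNReal.ofReal (Real.exp (-((Fin.cons 1 0 : Fin (n + 1) → ℝ) ⬝ᵥ x))))
          ((MeasurableEquiv.piFinSuccAbove (fun _ : Fin (n + 1) => ℝ) 0).symm (s, y)) =
          ((fun y : Fin n → ℝ => s⁻¹ • y) ⁻¹' K).indicator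
            (fun _ => ENNReal.ofReal (Real.exp (-s))) y := by
        intro y
        rw [hval]
        by_cases hy : s⁻¹ • y ∈ K
        · rw [Set.indicator_of_mem (show (Fin.cons s y : Fin (n + 1) → ℝ) ∈ C' from ⟨hs, hy⟩),
            Set.indicator_of_mem (show y ∈ (fun y : Fin n → ℝ => s⁻¹ • y) ⁻¹' K from hy), hdot]
        · rw [Set.indicator_of_notMem, Set.indicator_of_notMem]
          · exact hy
          · rintro ⟨_, h3⟩
            exact hy h3
      rw [lintegral_congr h1, lintegral_indicator ((measurable_const_smul s⁻¹) hK),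
        setLIntegral_const, Measure.addHaar_preimage_smul _ (inv_ne_zero hs.ne'), mul_assoc]
      congr 2
      rw [Module.finrank_fin_fun, inv_pow, inv_inv, abs_of_pos (by positivity)]
    · rw [Set.indicator_of_notMem (by simpa using hs)]
      rw [← lintegral_zero (μ := (volume : Measure (Fin n → ℝ)))]
      apply lintegral_congr
      intro y
      rw [hval, Set.indicator_of_notMem]
      rintro ⟨h3, _⟩
      exact hs h3
  calc _ = _ := hprod
    _ = ∫⁻ s : ℝ, (Set.Ioi (0 : ℝ)).indicator (fun s => ENNReal.ofReal (Real.exp (-s)) *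
        ENNReal.ofReal (s ^ n) * volume K) s := lintegral_congr hinner
    _ = (∫⁻ s in Set.Ioi (0 : ℝ), ENNReal.ofReal (Real.exp (-s)) * ENNReal.ofReal (s ^ n)) *
        volume K := by
      rw [lintegral_indicator measurableSet_Ioi, lintegral_mul_const]
      exact (ENNReal.measurable_ofReal.comp (Real.measurable_exp.comp measurable_neg)).mul
        (ENNReal.measurable_ofReal.comp (measurable_id.pow_const n))
    _ = _ := by rw [gamma_lint]

end MH.Helper47
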