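import Pool.Agent.Helper64.MH.Defs

/-!
# Part POSW: the weight of a cone is finite, and positive if the cone spans
-/

set_option autoImplicit false

namespace MH.Helper47

open MeasureTheory Matrix
open scoped ENNReal Pointwise

theorem exp_bd (k : ℕ) {M : ℝ} (hM : 0 < M) : ∃ C : ℝ, 0 < C ∧ ∀ t : ℝ, 0 ≤ t →
    (1 + t) ^ k * Real.exp (-(t / M)) ≤ C := by
  refine ⟨(k.factorial : ℝ) * M ^ k * Real.exp (1 / M), by positivity, fun t ht => ?_⟩
  have h1 := Real.pow_div_factorial_le_exp ((1 + t) / M) (by positivity) k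
  have hk : (0 : ℝ) < (k.factorial : ℝ) := by positivity
  rw [div_le_iff₀ hk, div_pow, div_le_iff₀ (by positivity)] at h1
  have h2 : Real.exp ((1 + t) / M) = Real.exp (1 / M) * Real.exp (t / M) := by
    rw [← Real.exp_add]
    congr 1
    ring
  have h3 : Real.exp (t / M) * Real.exp (-(t / M)) = 1 := by
    rw [← Real.exp_add, add_neg_cancel, Real.exp_zero]
  calc (1 + t) ^ k * Real.exp (-(t / M)) ≤
      (Real.exp ((1 + t) / M) * (k.factorial : ℝ) * M ^ k) * Real.exp (-(t / M)) :=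
        mul_le_mul_of_nonneg_right h1 (Real.exp_pos _).le
    _ = (k.factorial : ℝ) * M ^ k * Real.exp (1 / M) * (Real.exp (t / M) * Real.exp (-(t / M))) := by
        rw [h2]; ring
    _ = _ := by rw [h3, mul_one]

theorem cone_bd {τ : Type} [Fintype τ] {d : ℕ} (v : τ → Fin d → ℝ) (e : Fin d → ℝ)
    (hv : ∀ t, 0 < e ⬝ᵥ v t) : ∃ M : ℝ, 0 < M ∧ ∀ T : Set τ, ∀ x ∈ cone v T,
      ‖x‖ / M ≤ e ⬝ᵥ x := by
  classical
  refine ⟨1 + ∑ t, ‖v t‖ / (e ⬝ᵥ v t), ?_, ?_⟩
  · have : 0 ≤ ∑ t, ‖v t‖ / (e ⬝ᵥ v t) :=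
      Finset.sum_nonneg fun t _ => div_nonneg (norm_nonneg _) (hv t).le
    linarith
  · have hM : 0 < 1 + ∑ t, ‖v t‖ / (e ⬝ᵥ v t) := by
      have : 0 ≤ ∑ t, ‖v t‖ / (e ⬝ᵥ v t) :=
        Finset.sum_nonneg fun t _ => div_nonneg (norm_nonneg _) (hv t).le
      linarith
    set M := 1 + ∑ t, ‖v t‖ / (e ⬝ᵥ v t) with hMdef
    rintro T x ⟨l, hl, _, rfl⟩
    rw [div_le_iff₀ hM]
    have hvt : ∀ t, ‖v t‖ ≤ (e ⬝ᵥ v t) * M := by
      intro t
      have h1 : ‖v t‖ / (e ⬝ᵥ v t) ≤ M := by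
        have h2 : ‖v t‖ / (e ⬝ᵥ v t) ≤ ∑ t, ‖v t‖ / (e ⬝ᵥ v t) :=
          Finset.single_le_sum (f := fun t => ‖v t‖ / (e ⬝ᵥ v t))
            (fun t _ => div_nonneg (norm_nonneg _) (hv t).le) (Finset.mem_univ t)
        linarith
      rw [div_le_iff₀ (hv t)] at h1
      linarith
    calc ‖∑ t, l t • v t‖ ≤ ∑ t, ‖l t • v t‖ := norm_sum_le _ _
      _ ≤ ∑ t, l t * ((e ⬝ᵥ v t) * M) := by
        refine Finset.sum_le_sum fun t _ => ?_
        rw [norm_smul, Real.norm_eq_abs, abs_of_nonneg (hl t)]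
        exact mul_le_mul_of_nonneg_left (hvt t) (hl t)
      _ = (e ⬝ᵥ ∑ t, l t • v t) * M := by
        rw [dotProduct_sum, Finset.sum_mul]
        refine Finset.sum_congr rfl fun t _ => ?_
        rw [dotProduct_smul, smul_eq_mul, mul_assoc]

theorem cone_convex {τ : Type} [Fintype τ] {d : ℕ} (v : τ → Fin d → ℝ) (T : Set τ) :
    Convex ℝ (cone v T) := by
  rintro x ⟨l, hl, hl0, rfl⟩ y ⟨m, hm, hm0, rfl⟩ a b ha hb _
  refine ⟨fun t => a * l t + b * m t, fun t => ?_, fun t ht => ?_, ?_⟩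
  · have := hl t
    have := hm t
    positivity
  · show a * l t + b * m t = 0
    rw [hl0 t ht, hm0 t ht]
    ring
  · rw [Finset.smul_sum, Finset.smul_sum, ← Finset.sum_add_distrib]
    refine Finset.sum_congr rfl fun t _ => ?_
    rw [smul_smul, smul_smul, add_smul]

theorem posw : S_POSW := by
  intro τ _ d v e T hv
  classical
  obtain ⟨M, hM, hbd⟩ := cone_bd v e hv
  have hdotm : Measurable fun x : Fin d → ℝ => e ⬝ᵥ x := by
    unfold dotProduct
    exact Finset.measurable_sum _ fun i _ => (measurable_const.mul (measurable_pi_apply i))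
  have hdotc : Continuous fun x : Fin d → ℝ => e ⬝ᵥ x := by
    unfold dotProduct
    exact continuous_finsetSum _ fun i _ => (continuous_const.mul (continuous_apply i))
  have hfm : Measurable fun x : Fin d → ℝ => ENNReal.ofReal (Real.exp (-(e ⬝ᵥ x))) :=
    ENNReal.measurable_ofReal.comp (Real.measurable_exp.comp hdotm.neg)
  set D : Set (Fin d → ℝ) := {x | ‖x‖ / M ≤ e ⬝ᵥ x} with hD
  have hDm : MeasurableSet D := measurableSet_le (measurable_norm.div_const M) hdotm
  have hsub : cone v T ⊆ D := fun x hx => hbd T x hx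
  -- the integrable majorant
  obtain ⟨C, hC, hCb⟩ := exp_bd (d + 2) hM
  have hint : Integrable (fun x : Fin d → ℝ => C * (1 + ‖x‖) ^ (-((d : ℝ) + 1))) := by
    apply Integrable.const_mul
    apply integrable_one_add_norm
    rw [Module.finrank_fin_fun]
    linarith
  have hmaj : ∀ x ∈ D, (1 + ‖x‖) * Real.exp (-(e ⬝ᵥ x)) ≤ C * (1 + ‖x‖) ^ (-((d : ℝ) + 1)) := by
    intro x hx
    have h1 : Real.exp (-(e ⬝ᵥ x)) ≤ Real.exp (-(‖x‖ / M)) := Real.exp_le_exp.2 (neg_le_neg hx)
    have h2 := hCb ‖x‖ (norm_nonneg _)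
    have h3 : 0 < 1 + ‖x‖ := by positivity
    have h4 : (1 + ‖x‖) ^ (-((d : ℝ) + 1)) = ((1 + ‖x‖) ^ (d + 1))⁻¹ := by
      rw [Real.rpow_neg h3.le]
      congr 1
      exact_mod_cast Real.rpow_natCast (1 + ‖x‖) (d + 1)
    rw [h4, ← div_eq_mul_inv, le_div_iff₀ (by positivity)]
    calc (1 + ‖x‖) * Real.exp (-(e ⬝ᵥ x)) * (1 + ‖x‖) ^ (d + 1) =
        (1 + ‖x‖) ^ (d + 2) * Real.exp (-(e ⬝ᵥ x)) := by ring
      _ ≤ (1 + ‖x‖) ^ (d + 2) * Real.exp (-(‖x‖ / M)) :=
        mul_le_mul_of_nonneg_left h1 (by positivity)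
      _ ≤ C := h2
  have hfin : ∫⁻ x : Fin d → ℝ, ENNReal.ofReal (C * (1 + ‖x‖) ^ (-((d : ℝ) + 1))) < ⊤ := by
    have := hint.lintegral_lt_top
    exact this
  refine ⟨?_, ?_, ?_⟩
  · apply ne_of_lt
    unfold W
    refine lt_of_le_of_lt ?_ hfin
    calc ∫⁻ x in cone v T, ENNReal.ofReal (Real.exp (-(e ⬝ᵥ x))) ≤
        ∫⁻ x in D, ENNReal.ofReal (Real.exp (-(e ⬝ᵥ x))) := lintegral_mono_set hsub
      _ ≤ ∫⁻ x in D, ENNReal.ofReal (C * (1 + ‖x‖) ^ (-((d : ℝ) + 1))) := by
        refine setLIntegral_mono' hDm fun x hx => ?_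
        apply ENNReal.ofReal_le_ofReal
        refine le_trans ?_ (hmaj x hx)
        nlinarith [Real.exp_pos (-(e ⬝ᵥ x)), norm_nonneg x]
      _ ≤ _ := setLIntegral_le_lintegral _ _
  · intro hspan
    unfold W
    apply ne_of_gt
    rw [setLIntegral_pos_iff hfm]
    have hsupp : Function.support (fun x : Fin d → ℝ => ENNReal.ofReal (Real.exp (-(e ⬝ᵥ x)))) =
        Set.univ := by
      ext x
      simp [Real.exp_pos]
    rw [hsupp, Set.univ_inter]
    apply Measure.measure_pos_of_nonempty_interior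
    have h0 : (0 : Fin d → ℝ) ∈ cone v T :=
      ⟨fun _ => 0, fun _ => le_rfl, fun _ _ => rfl, by simp⟩
    rw [(cone_convex v T).interior_nonempty_iff_affineSpan_eq_top,
      AffineSubspace.affineSpan_eq_top_iff_vectorSpan_eq_top_of_nonempty ℝ _ _ ⟨0, h0⟩, eq_top_iff,
      ← hspan, Submodule.span_le]
    rintro _ ⟨t, ht, rfl⟩
    have h1 : v t ∈ cone v T := by
      refine ⟨Pi.single t 1, fun s => ?_, fun s hs => ?_, ?_⟩
      · by_cases h : s = t
        · subst h; simp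
        · simp [Pi.single_eq_of_ne h]
      · have h : s ≠ t := by
          rintro rfl
          exact hs ht
        simp [Pi.single_eq_of_ne h]
      · rw [Finset.sum_eq_single t]
        · simp
        · intro s _ h
          simp [Pi.single_eq_of_ne h]
        · intro h
          exact absurd (Finset.mem_univ t) h
    have h2 := vsub_mem_vectorSpan ℝ h1 h0
    rwa [vsub_eq_sub, sub_zero] at h2
  · have hle : ((volume.restrict (cone v T)).withDensity
        fun x => ENNReal.ofReal (Real.exp (-(e ⬝ᵥ x)))) ≤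
        ((volume.restrict D).withDensity fun x => ENNReal.ofReal (Real.exp (-(e ⬝ᵥ x)))) := by
      refine Measure.le_iff.2 fun s hs => ?_
      rw [withDensity_apply _ hs, withDensity_apply _ hs, Measure.restrict_restrict hs,
        Measure.restrict_restrict hs]
      exact lintegral_mono_set (Set.inter_subset_inter_right _ hsub)
    refine Integrable.mono_measure ?_ hle
    rw [integrable_withDensity_iff hfm (Filter.Eventually.of_forall fun x => ENNReal.ofReal_lt_top)]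
    refine Integrable.mono' (hint.restrict (s := D)) ?_ ?_
    · exact ((measurable_norm).mul hfm.ennreal_toReal).aestronglyMeasurable
    · refine (ae_restrict_iff' hDm).2 (Filter.Eventually.of_forall fun x hx => ?_)
      rw [ENNReal.toReal_ofReal (Real.exp_pos _).le, Real.norm_eq_abs, abs_of_nonneg (by positivity)]
      refine le_trans ?_ (hmaj x hx)
      nlinarith [Real.exp_pos (-(e ⬝ᵥ x)), norm_nonneg x]

end MH.Helper47
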